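import Mathlib

/-!
# Commuting ideals and irreducible modules

`U` is an irreducible module over a Lie algebra `L = J + C`, `J` and `C` ideals that commute.
-/

namespace Pool.Agent.GS

open Module LieModule

variable {K L U : Type*} [Field K] [LieRing L] [LieAlgebra K L]
  [AddCommGroup U] [Module K U] [LieRingModule L U] [LieModule K L U]

/-- If `zw = 0` on `U` with `z ∈ J`, `w ∈ C`, then `z = 0` on `U` or `w = 0` on `U`. -/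
theorem lie_lie_eq_zero [IsIrreducible K L U] {J C : LieIdeal K L} (hJC : J ⊔ C = ⊤)
    (hc : ∀ x ∈ J, ∀ y ∈ C, ⁅x, y⁆ = 0) {z w : L} (hz : z ∈ J) (hw : w ∈ C)
    (h : ∀ u : U, ⁅z, ⁅w, u⁆⁆ = 0) : (∀ u : U, ⁅z, u⁆ = 0) ∨ ∀ u : U, ⁅w, u⁆ = 0 := by
  have hcu : ∀ x ∈ J, ∀ y ∈ C, ∀ u : U, ⁅x, ⁅y, u⁆⁆ = ⁅y, ⁅x, u⁆⁆ := fun x hx y hy u => by
    rw [leibniz_lie, hc x hx y hy, zero_lie, zero_add]
  let Y : LieSubmodule K L U :=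
    { carrier := {v | ∀ z' ∈ J, (∀ u : U, ⁅z', ⁅w, u⁆⁆ = 0) → ⁅z', v⁆ = 0}
      add_mem' := fun {a b} ha hb z' h1 h2 => by rw [lie_add, ha z' h1 h2, hb z' h1 h2, add_zero]
      zero_mem' := fun z' _ _ => lie_zero z'
      smul_mem' := fun c v hv z' h1 h2 => by rw [lie_smul, hv z' h1 h2, smul_zero]
      lie_mem := by
        intro l v hv z' h1 h2
        obtain ⟨x, hx, y, hy, rfl⟩ : ∃ x ∈ J, ∃ y ∈ C, x + y = l := by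
          have : l ∈ J ⊔ C := by rw [hJC]; exact LieSubmodule.mem_top l
          rwa [LieSubmodule.mem_sup] at this
        have e1 : ⁅z', ⁅x, v⁆⁆ = 0 := by
          rw [leibniz_lie, hv z' h1 h2, lie_zero, add_zero]
          refine hv ⁅z', x⁆ (J.lie_mem hx) fun u => ?_
          rw [lie_lie, h2 u, lie_zero, sub_zero, hcu x hx w hw, h2]
        have e2 : ⁅z', ⁅y, v⁆⁆ = 0 := by
          rw [hcu z' h1 y hy, hv z' h1 h2, lie_zero]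
        rw [add_lie, lie_add, e1, e2, add_zero] }
  rcases eq_bot_or_eq_top Y with hY | hY
  · refine Or.inr fun u => ?_
    have : ⁅w, u⁆ ∈ Y := fun z' _ h2 => h2 u
    rw [hY] at this
    simpa using this
  · refine Or.inl fun u => ?_
    have : u ∈ Y := by rw [hY]; exact LieSubmodule.mem_top u
    exact this z hz h

/-- If `c + x + y`, `x ∈ J`, `y ∈ C`, has scalar square, then `[x, J] = 0` or `[y, C] = 0` on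
`U`. -/
theorem square_scalar [CharZero K] [IsIrreducible K L U] {J C : LieIdeal K L} (hJC : J ⊔ C = ⊤)
    (hc : ∀ x ∈ J, ∀ y ∈ C, ⁅x, y⁆ = 0) {x y : L} (hx : x ∈ J) (hy : y ∈ C) {c d : K}
    (h : ∀ u : U, c • (c • u + ⁅x, u⁆ + ⁅y, u⁆) + ⁅x, c • u + ⁅x, u⁆ + ⁅y, u⁆⁆ +
      ⁅y, c • u + ⁅x, u⁆ + ⁅y, u⁆⁆ = d • u) :
    (∀ z ∈ J, ∀ u : U, ⁅⁅x, z⁆, u⁆ = 0) ∨ ∀ w ∈ C, ∀ u : U, ⁅⁅y, w⁆, u⁆ = 0 := by
  have hcu : ∀ x ∈ J, ∀ y ∈ C, ∀ u : U, ⁅x, ⁅y, u⁆⁆ = ⁅y, ⁅x, u⁆⁆ := fun x hx y hy u => by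
    rw [leibniz_lie, hc x hx y hy, zero_lie, zero_add]
  -- the operator `T`
  set T : U → U := fun u => c • u + ⁅x, u⁆ + ⁅y, u⁆ with hT
  have hT2 : ∀ u, T (T u) = d • u := fun u => h u
  have Tadd : ∀ u v, T (u + v) = T u + T v := fun u v => by
    simp only [hT, smul_add, lie_add]; abel
  have Tsub : ∀ u v, T (u - v) = T u - T v := fun u v => by
    simp only [hT, smul_sub, lie_sub]; abel
  have TZ : ∀ z ∈ J, ∀ u, T ⁅z, u⁆ = ⁅z, T u⁆ + ⁅⁅x, z⁆, u⁆ := fun z hz u => by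
    simp only [hT, lie_add, lie_smul, lie_lie, hcu z hz y hy]; abel
  have TW : ∀ w ∈ C, ∀ u, T ⁅w, u⁆ = ⁅w, T u⁆ + ⁅⁅y, w⁆, u⁆ := fun w hw u => by
    simp only [hT, lie_add, lie_smul, lie_lie, hcu x hx w hw]; abel
  clear_value T
  -- `T A + A T = 0`
  have TA : ∀ z ∈ J, ∀ u, T ⁅⁅x, z⁆, u⁆ + ⁅⁅x, z⁆, T u⁆ = 0 := fun z hz u => by
    have e1 : T (T ⁅z, u⁆) = d • ⁅z, u⁆ := hT2 _
    rw [TZ z hz, Tadd, TZ z hz (T u), hT2, lie_smul, add_assoc] at e1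
    have := add_eq_left.mp e1
    rw [add_comm]; exact this
  have key : ∀ z ∈ J, ∀ w ∈ C, ∀ u : U, ⁅⁅x, z⁆, ⁅⁅y, w⁆, u⁆⁆ = 0 := fun z hz w hw u => by
    have hA : ⁅x, z⁆ ∈ J := J.lie_mem hz
    have hB : ⁅y, w⁆ ∈ C := C.lie_mem hw
    have e1 := TA z hz ⁅w, u⁆
    rw [hcu _ hA w hw, TW w hw, TW w hw, lie_add, hcu _ hA w hw] at e1
    have e2 : ⁅w, T ⁅⁅x, z⁆, u⁆⁆ + ⁅w, ⁅⁅x, z⁆, T u⁆⁆ = 0 := by rw [← lie_add, TA z hz, lie_zero]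
    have e3 : ⁅⁅y, w⁆, ⁅⁅x, z⁆, u⁆⁆ = ⁅⁅x, z⁆, ⁅⁅y, w⁆, u⁆⁆ := (hcu _ hA _ hB u).symm
    rw [e3] at e1
    have e4 : ⁅⁅x, z⁆, ⁅⁅y, w⁆, u⁆⁆ + ⁅⁅x, z⁆, ⁅⁅y, w⁆, u⁆⁆ = 0 := by
      have : ⁅w, T ⁅⁅x, z⁆, u⁆⁆ + ⁅⁅x, z⁆, ⁅⁅y, w⁆, u⁆⁆ + (⁅w, ⁅⁅x, z⁆, T u⁆⁆ +
        ⁅⁅x, z⁆, ⁅⁅y, w⁆, u⁆⁆) = (⁅w, T ⁅⁅x, z⁆, u⁆⁆ + ⁅w, ⁅⁅x, z⁆, T u⁆⁆) +
        (⁅⁅x, z⁆, ⁅⁅y, w⁆, u⁆⁆ + ⁅⁅x, z⁆, ⁅⁅y, w⁆, u⁆⁆) := by abel
      rw [e1, e2, zero_add] at this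
      exact this.symm
    rw [← two_smul K] at e4
    exact (smul_eq_zero.mp e4).resolve_left two_ne_zero
  by_contra hcon
  rw [not_or] at hcon
  obtain ⟨h1, h2⟩ := hcon
  push Not at h1 h2
  obtain ⟨z, hz, u, hu⟩ := h1
  obtain ⟨w, hw, v, hv⟩ := h2
  rcases lie_lie_eq_zero (U := U) hJC hc (J.lie_mem hz : ⁅x, z⁆ ∈ J) (C.lie_mem hw : ⁅y, w⁆ ∈ C)
    (key z hz w hw) with h | h
  · exact hu (h u)
  · exact hv (h v)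

end Pool.Agent.GS
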