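import Pool.Agent.Lib_helper24.GS.G9

/-!
# The symplectic case: dimension not divisible by 4, or gcd(rank N, dim) = 2
-/

namespace Pool.Agent.GS

open Module LieModule

section one

variable {K L U : Type*} [Field K] [CharZero K] [LieRing L] [LieAlgebra K L]
  [AddCommGroup U] [Module K U] [LieRingModule L U] [LieModule K L U]
  [IsIrreducible K L U] [FiniteDimensional K U] {J C : LieIdeal K L}

/-- In the symplectic case, if the constituent of `C` has dimension 2, the rank of every element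
of `J` is divisible by 4. -/
theorem four_dvd_rank (hc : ∀ x ∈ J, ∀ y ∈ C, ⁅x, y⁆ = 0)
    (B : Submodule (AC K U C) U) [IsSimpleModule (AC K U C) B]
    (hB : isotypicComponent (AC K U C) U B = ⊤)
    (ht : ∀ x : L, LinearMap.trace K U (toEnd K L U x) = 0) {h₂ : L} (m₂ : h₂ ∈ C)
    (s₂ : ∀ u : U, ⁅h₂, ⁅h₂, u⁆⁆ = (1 / 4 : K) • u) (hd : finrank K B = 2)
    (ω : LinearMap.BilinForm K U) (hω : ∀ u, (∀ v, ω u v = 0) → u = 0)
    (hsk : ∀ u v, ω u v = -ω v u) (hinv : ∀ (x : L) (v w : U), ω ⁅x, v⁆ w = -ω v ⁅x, w⁆)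
    {N : L} (hN : N ∈ J) : 4 ∣ finrank K (LinearMap.range (toEnd K L U N)) := by
  obtain ⟨f, hfC, hf1, hf2⟩ := exists_lower B hB ht m₂ s₂ hd
  have hcu : ∀ x ∈ J, ∀ y ∈ C, ∀ u : U, ⁅x, ⁅y, u⁆⁆ = ⁅y, ⁅x, u⁆⁆ := fun x hx y hy u => by
    rw [leibniz_lie, hc x hx y hy, zero_lie, zero_add]
  set Up := eig K U h₂ (1 / 2) with hUp
  set Um := eig K U h₂ (-(1 / 2)) with hUm
  obtain ⟨e1, e2⟩ := eig_half s₂ (ht h₂)
  rw [← hUp] at e1
  rw [← hUm] at e2
  have hsup : Up ⊔ Um = ⊤ := eig_sup s₂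
  have hinf : Up ⊓ Um = ⊥ := eig_inf h₂
  -- `f` maps `Up` onto `Um`
  have hfU : Up.map (toEnd K L U f) = Um := by
    refine Submodule.eq_of_le_of_finrank_eq ?_ ?_
    · rintro _ ⟨u, hu, rfl⟩
      exact hf1 u hu
    · have h1 : finrank K (Up.map (toEnd K L U f)) = finrank K Up := by
        have h2 : Up.map (toEnd K L U f) = LinearMap.range ((toEnd K L U f).domRestrict Up) :=
          (LinearMap.range_domRestrict _ _).symm
        rw [h2]
        refine LinearMap.finrank_range_of_inj ?_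
        rw [← LinearMap.ker_eq_bot, eq_bot_iff]
        rintro ⟨u, hu⟩ h3
        have : u = 0 := hf2 u hu h3
        simpa using this
      rw [h1]
      omega
  -- `Up` is isotropic
  have hiso : ∀ u ∈ Up, ∀ v ∈ Up, ω u v = 0 := by
    intro u hu v hv
    rw [hUp, mem_eig] at hu hv
    have h1 := hinv h₂ u v
    rw [hu, hv, map_smul, map_smul, LinearMap.smul_apply, smul_eq_mul] at h1
    linear_combination h1
  have hNp : ∀ u ∈ Up, ⁅N, u⁆ ∈ Up := by
    intro u hu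
    rw [hUp, mem_eig] at hu ⊢
    rw [← hcu N hN h₂ m₂, hu, lie_smul]
  have hNm : ∀ u ∈ Um, ⁅N, u⁆ ∈ Um := by
    intro u hu
    rw [hUm, mem_eig] at hu ⊢
    rw [← hcu N hN h₂ m₂, hu, lie_smul]
  -- the skew form
  let NU : Up →ₗ[K] U := (toEnd K L U N).domRestrict Up
  let fU : Up →ₗ[K] U := (toEnd K L U f).domRestrict Up
  let α : LinearMap.BilinForm K Up := ω.compl₁₂ NU fU
  have hα : ∀ u v : Up, α u v = ω ⁅N, (u : U)⁆ ⁅f, (v : U)⁆ := fun u v => rfl
  have hαs : ∀ u v : Up, α u v = -α v u := by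
    intro u v
    rw [hα, hα]
    have h1 : ω ⁅N, (u : U)⁆ ⁅f, (v : U)⁆ = -ω ⁅f, ⁅N, (u : U)⁆⁆ (v : U) := by
      rw [hinv f ⁅N, (u : U)⁆ (v : U), neg_neg]
    rw [h1, ← hcu N hN f hfC, hinv N, neg_neg, hsk]
  have hα0 : ∀ u : Up, (∀ v : Up, α u v = 0) → NU u = 0 := by
    intro u hu
    refine hω _ fun w => ?_
    have hw : w ∈ Up ⊔ Um := by rw [hsup]; exact Submodule.mem_top
    obtain ⟨a, ha, b, hb, rfl⟩ := Submodule.mem_sup.mp hw
    have h0 : NU u = ⁅N, (u : U)⁆ := rfl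
    rw [map_add, h0, hiso _ (hNp u u.2) a ha, zero_add]
    rw [← hfU] at hb
    obtain ⟨v, hv, rfl⟩ := hb
    exact hu ⟨v, hv⟩
  obtain ⟨S, hS⟩ := Submodule.exists_isCompl (LinearMap.ker NU)
  have hSe : Even (finrank K S) := by
    refine even_of_skew (α.restrict S) (fun s hs => ?_) fun s t => hαs s t
    have h1 : NU s = 0 := by
      refine hα0 s fun v => ?_
      have hv : v ∈ LinearMap.ker NU ⊔ S := by rw [hS.sup_eq_top]; exact Submodule.mem_top
      obtain ⟨a, ha, b, hb, rfl⟩ := Submodule.mem_sup.mp hv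
      have h2 : α (s : Up) a = 0 := by
        rw [hαs, hα]
        have : ⁅N, (a : U)⁆ = 0 := ha
        rw [this, map_zero, LinearMap.zero_apply, neg_zero]
      rw [map_add, h2, zero_add]
      exact hs ⟨b, hb⟩
    have h2 : (s : Up) ∈ LinearMap.ker NU ⊓ S := ⟨h1, s.2⟩
    rw [hS.inf_eq_bot] at h2
    apply Subtype.ext
    simpa using h2
  have hr : finrank K (LinearMap.range NU) = finrank K S := by
    have h1 := LinearMap.finrank_range_add_finrank_ker NU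
    have h2 := Submodule.finrank_add_eq_of_isCompl hS
    omega
  -- the range of `N`
  have hNU : LinearMap.range NU = Up.map (toEnd K L U N) := LinearMap.range_domRestrict _ _
  have hmm : Um.map (toEnd K L U N) = (Up.map (toEnd K L U N)).map (toEnd K L U f) := by
    rw [← hfU]
    ext x
    constructor
    · rintro ⟨_, ⟨u, hu, rfl⟩, rfl⟩
      exact ⟨⁅N, u⁆, ⟨u, hu, rfl⟩, (hcu N hN f hfC u).symm⟩
    · rintro ⟨_, ⟨u, hu, rfl⟩, rfl⟩
      exact ⟨⁅f, u⁆, ⟨u, hu, rfl⟩, hcu N hN f hfC u⟩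
  have hfr : finrank K (Um.map (toEnd K L U N)) = finrank K (Up.map (toEnd K L U N)) := by
    rw [hmm]
    have h2 : (Up.map (toEnd K L U N)).map (toEnd K L U f) =
        LinearMap.range ((toEnd K L U f).domRestrict (Up.map (toEnd K L U N))) :=
      (LinearMap.range_domRestrict _ _).symm
    rw [h2]
    refine LinearMap.finrank_range_of_inj ?_
    rw [← LinearMap.ker_eq_bot, eq_bot_iff]
    rintro ⟨u, hu⟩ h3
    have h4 : u ∈ Up := by
      obtain ⟨v, hv, rfl⟩ := hu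
      exact hNp v hv
    have : u = 0 := hf2 u h4 h3
    simpa using this
  have hrange : LinearMap.range (toEnd K L U N) =
      Up.map (toEnd K L U N) ⊔ Um.map (toEnd K L U N) := by
    rw [← Submodule.map_sup, hsup, Submodule.map_top]
  have hdis : Up.map (toEnd K L U N) ⊓ Um.map (toEnd K L U N) = ⊥ := by
    rw [eq_bot_iff, ← hinf]
    rintro x ⟨⟨u, hu, rfl⟩, ⟨v, hv, h⟩⟩
    refine ⟨hNp u hu, ?_⟩
    rw [← h]
    exact hNm v hv
  have hsum := Submodule.finrank_sup_add_finrank_inf_eq (Up.map (toEnd K L U N))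
    (Um.map (toEnd K L U N))
  rw [← hrange, hdis, finrank_bot, add_zero, hfr, ← hNU, hr] at hsum
  obtain ⟨t, ht'⟩ := hSe
  rw [hsum, ht']
  exact ⟨t, by ring⟩

/-- The rank of a square-zero element is not of the form required. -/
theorem sym_side (hJC : J ⊔ C = ⊤) (hc : ∀ x ∈ J, ∀ y ∈ C, ⁅x, y⁆ = 0)
    (ht : ∀ x : L, LinearMap.trace K U (toEnd K L U x) = 0)
    {h₁ h₂ : L} (m₁ : h₁ ∈ J)
    (m₂ : h₂ ∈ C) (s₁ : ∀ u : U, ⁅h₁, ⁅h₁, u⁆⁆ = (1 / 4 : K) • u)
    (s₂ : ∀ u : U, ⁅h₂, ⁅h₂, u⁆⁆ = (1 / 4 : K) • u)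
    (ω : LinearMap.BilinForm K U) (hω : ∀ u, (∀ v, ω u v = 0) → u = 0)
    (hsk : ∀ u v, ω u v = -ω v u) (hinv : ∀ (x : L) (v w : U), ω ⁅x, v⁆ w = -ω v ⁅x, w⁆)
    {N : L} (hN : N ∈ J) :
    Nat.gcd (finrank K (LinearMap.range (toEnd K L U N))) (finrank K U) ≠ 2 := by
  intro hg
  have hcu : ∀ x ∈ J, ∀ y ∈ C, ∀ u : U, ⁅x, ⁅y, u⁆⁆ = ⁅y, ⁅x, u⁆⁆ := fun x hx y hy u => by
    rw [leibniz_lie, hc x hx y hy, zero_lie, zero_add]
  obtain ⟨B, hBs, hB⟩ := exists_simple (K := K) (U := U) hJC hc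
  obtain ⟨k1, -⟩ := const_half B hB ht m₂ s₂
  obtain ⟨-, hdv, -⟩ := iso_dvd (K := K) B hB
  have a1 : finrank K B ∣ finrank K (LinearMap.range (toEnd K L U N)) := by
    have := hdv (asSub (C := C) (LinearMap.range (toEnd K L U N)) (by
      rintro y hy _ ⟨v, rfl⟩
      exact ⟨⁅y, v⁆, hcu N hN y hy v⟩))
    rwa [asSub_finrank] at this
  have a2 : finrank K B ∣ finrank K U := by
    have := hdv (asSub (C := C) (⊤ : Submodule K U) (fun y _ u _ => Submodule.mem_top))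
    rwa [asSub_finrank, finrank_top] at this
  have a3 := Nat.dvd_gcd a1 a2
  rw [hg] at a3
  have hB0 : 0 < finrank K B := (iso_dvd (K := K) B hB).1
  have hd : finrank K B = 2 := by
    rcases (Nat.dvd_prime Nat.prime_two).mp a3 with h | h
    · omega
    · exact h
  have b1 := four_dvd_rank hc B hB ht m₂ s₂ hd ω hω hsk hinv hN
  have b2 := four_dvd hJC hc ht m₁ m₂ s₁ s₂
  have b3 := Nat.dvd_gcd b1 b2
  rw [hg] at b3
  omega

/-- The rank of an element of `J` is even. -/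
theorem even_rank (hJC : J ⊔ C = ⊤) (hc : ∀ x ∈ J, ∀ y ∈ C, ⁅x, y⁆ = 0)
    (ht : ∀ x : L, LinearMap.trace K U (toEnd K L U x) = 0) {h₂ : L} (m₂ : h₂ ∈ C)
    (s₂ : ∀ u : U, ⁅h₂, ⁅h₂, u⁆⁆ = (1 / 4 : K) • u) {N : L} (hN : N ∈ J) :
    Even (finrank K (LinearMap.range (toEnd K L U N))) := by
  have hcu : ∀ x ∈ J, ∀ y ∈ C, ∀ u : U, ⁅x, ⁅y, u⁆⁆ = ⁅y, ⁅x, u⁆⁆ := fun x hx y hy u => by
    rw [leibniz_lie, hc x hx y hy, zero_lie, zero_add]
  obtain ⟨B, hBs, hB⟩ := exists_simple (K := K) (U := U) hJC hc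
  obtain ⟨k1, -⟩ := const_half B hB ht m₂ s₂
  obtain ⟨-, hdv, -⟩ := iso_dvd (K := K) B hB
  have a1 : finrank K B ∣ finrank K (LinearMap.range (toEnd K L U N)) := by
    have := hdv (asSub (C := C) (LinearMap.range (toEnd K L U N)) (by
      rintro y hy _ ⟨v, rfl⟩
      exact ⟨⁅y, v⁆, hcu N hN y hy v⟩))
    rwa [asSub_finrank] at this
  obtain ⟨t, ht'⟩ := a1
  rw [ht', k1]
  exact ⟨finrank K (LinearMap.ker (mulL K B (inAC m₂ - algebraMap K (AC K U C) (1 / 2)))) * t,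
    by ring⟩

end one

/-- A skew-adjoint operator has trace `0`. -/
theorem trace_skew {K U : Type*} [Field K] [CharZero K] [AddCommGroup U] [Module K U]
    [FiniteDimensional K U] (ω : LinearMap.BilinForm K U) (hω : ∀ u, (∀ v, ω u v = 0) → u = 0)
    {T : Module.End K U} (hT : ∀ v w, ω (T v) w = -ω v (T w)) : LinearMap.trace K U T = 0 := by
  have hinj : Function.Injective (ω : U →ₗ[K] Module.Dual K U) := by
    rw [← LinearMap.ker_eq_bot, eq_bot_iff]
    intro u hu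
    have : u = 0 := hω u fun v => by
      have h1 : ω u = 0 := hu
      rw [h1, LinearMap.zero_apply]
    simpa using this
  let e : U ≃ₗ[K] Module.Dual K U :=
    LinearEquiv.ofInjectiveOfFinrankEq ω hinj (Subspace.dual_finrank_eq).symm
  have he : ∀ u, e u = ω u := fun u => rfl
  have h1 : e.conj T = -(Module.Dual.transpose (R := K) T) := by
    refine LinearMap.ext fun φ => ?_
    obtain ⟨u, rfl⟩ := e.surjective φ
    rw [LinearEquiv.conj_apply_apply, LinearEquiv.symm_apply_apply]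
    refine LinearMap.ext fun w => ?_
    rw [he, LinearMap.neg_apply, LinearMap.neg_apply, he, hT]
    rfl
  have h2 := LinearMap.trace_conj' T e
  rw [h1] at h2
  have h4 := (LinearMap.trace K (Module.Dual K U)).map_neg (Module.Dual.transpose (R := K) T)
  have h5 : -LinearMap.trace K U T = LinearMap.trace K U T := by
    have h6 := h4.symm.trans h2
    rwa [LinearMap.trace_transpose'] at h6
  have h3 : (2 : K) * LinearMap.trace K U T = 0 := by linear_combination -h5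
  exact (mul_eq_zero.mp h3).resolve_left two_ne_zero

attribute [local instance 100] LieRing.ofAssociativeRing

/-- The symplectic case: if 4 does not divide `dim U`, or some `N` with `N² = 0` has odd rank or
`gcd(rank N, dim U) = 2`, the image is simple. -/
theorem psimple_sym {K : Type*} [Field K] [CharZero K] [IsAlgClosed K] {g : Type*} [LieRing g]
    [LieAlgebra K g] (U : Type*) [AddCommGroup U] [Module K U] [FiniteDimensional K U]
    [LieRingModule g U] [LieModule K g U] [LieModule.IsIrreducible K g U]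
    (ω : LinearMap.BilinForm K U) (hω : ∀ u, (∀ v, ω u v = 0) → u = 0) (halt : ∀ u, ω u u = 0)
    (hinv : ∀ (x : g) (v w : U), ω ⁅x, v⁆ w = -ω v ⁅x, w⁆) (P : g → Prop)
    (hP : ∀ h, P h → ∀ v : U, ⁅h, ⁅h, v⁆⁆ = (1 / 4 : K) • v)
    (HT : ∀ I : LieIdeal K g, (∀ h, P h → h ∈ I) → I = ⊤)
    (hg : ¬ 4 ∣ finrank K U ∨ ∃ N : g, (∀ v : U, ⁅N, ⁅N, v⁆⁆ = 0) ∧
      (Odd (finrank K (LinearMap.range (toEnd K g U N))) ∨
        Nat.gcd (finrank K (LinearMap.range (toEnd K g U N))) (finrank K U) = 2)) :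
    ∀ I : LieIdeal K g, (∀ y ∈ I, ∃ c : K, ∀ v : U, ⁅y, v⁆ = c • v) ∨
      (∀ z : g, ∃ y ∈ I, ∃ c : K, ∀ v : U, ⁅z, v⁆ = ⁅y, v⁆ + c • v) := by
  obtain ⟨htr, hfa, hirr, hz, hI⟩ := facts (K := K) (g := g) U
  intro I
  rcases hI I with h | h | ⟨J, C, hJ, hC, hJC, hJC', hc⟩
  · exact Or.inl h
  · exact Or.inr h
  exfalso
  let L : LieSubalgebra K (Module.End K U) := (phi (g := g) U).range
  let f : g →ₗ⁅K⁆ L := (phi (g := g) U).rangeRestrict
  have hf : Function.Surjective f := (phi (g := g) U).surjective_rangeRestrict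
  have htg : ∀ z : g, LinearMap.trace K U (toEnd K g U z) = 0 := fun z =>
    trace_skew ω hω fun v w => hinv z v w
  have hfv : ∀ (z : g) (v : U), ⁅f z, v⁆ = ⁅z, v⁆ := fun z v => by
    have : ⁅f z, v⁆ = ⁅z, v⁆ -
      ((finrank K U : K)⁻¹ * LinearMap.trace K U (toEnd K g U z)) • v := rfl
    rw [this, htg, mul_zero, zero_smul, sub_zero]
  have hsk : ∀ u v, ω u v = -ω v u := by
    intro u v
    have h1 := halt (u + v)
    rw [map_add, map_add, LinearMap.add_apply, LinearMap.add_apply, halt, halt] at h1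
    linear_combination h1
  have hinvL : ∀ (x : L) (v w : U), ω ⁅x, v⁆ w = -ω v ⁅x, w⁆ := by
    intro x v w
    obtain ⟨z, rfl⟩ := hf x
    rw [hfv, hfv, hinv]
  -- generators outside a proper ideal
  have hex : ∀ Q : LieIdeal K L, Q ≠ ⊤ → ∃ h, P h ∧ f h ∉ Q := by
    intro Q hQ
    by_contra hcon
    push Not at hcon
    have h1 := HT (Q.comap f) fun h hh => (LieIdeal.mem_comap).mpr (hcon h hh)
    refine hQ (eq_top_iff.mpr fun x _ => ?_)
    obtain ⟨z, rfl⟩ := hf x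
    have : z ∈ Q.comap f := by rw [h1]; exact LieSubmodule.mem_top z
    exact LieIdeal.mem_comap.mp this
  have hJt : J ≠ ⊤ := fun h => hC (by rwa [h, top_inf_eq] at hJC')
  have hCt : C ≠ ⊤ := fun h => hJ (by rwa [h, inf_top_eq] at hJC')
  obtain ⟨h₁, p₁, n₁⟩ := hex C hCt
  obtain ⟨h₂, p₂, n₂⟩ := hex J hJt
  have hsq : ∀ h, P h → ∀ u : U, ⁅f h, ⁅f h, u⁆⁆ = (1 / 4 : K) • u := by
    intro h ph u
    rw [hfv, hfv, hP h ph]
  have hmem : ∀ l : L, ∀ d : K, (∀ u : U, ⁅l, ⁅l, u⁆⁆ = d • u) → l ∈ J ∨ l ∈ C := by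
    intro l d hl
    refine mem_or (U := U) (c := 0) (d := d) hJC hc hfa hz fun u => ?_
    rw [zero_smul, zero_smul, zero_add, zero_add, hl]
  have m₁ : f h₁ ∈ J := (hmem _ _ (hsq h₁ p₁)).resolve_right n₁
  have m₂ : f h₂ ∈ C := (hmem _ _ (hsq h₂ p₂)).resolve_left n₂
  rcases hg with hg | ⟨N, hN, hg⟩
  · exact hg (four_dvd hJC hc htr m₁ m₂ (hsq h₁ p₁) (hsq h₂ p₂))
  · have hNe : toEnd K L U (f N) = toEnd K g U N := LinearMap.ext (hfv N)
    rw [← hNe] at hg
    have hJC'' : C ⊔ J = ⊤ := by rw [sup_comm]; exact hJC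
    have hc' : ∀ x ∈ C, ∀ y ∈ J, ⁅x, y⁆ = 0 :=
      fun x hx y hy => by rw [← lie_skew, hc y hy x hx, neg_zero]
    rcases hmem (f N) 0 (fun u => by rw [hfv, hfv, hN, zero_smul]) with m | m
    · rcases hg with hg | hg
      · exact (Nat.not_even_iff_odd.mpr hg) (even_rank hJC hc htr m₂ (hsq h₂ p₂) m)
      · exact sym_side hJC hc htr m₁ m₂ (hsq h₁ p₁) (hsq h₂ p₂) ω hω hsk hinvL m hg
    · rcases hg with hg | hg
      · exact (Nat.not_even_iff_odd.mpr hg) (even_rank hJC'' hc' htr m₁ (hsq h₁ p₁) m)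
      · exact sym_side hJC'' hc' htr m₂ m₁ (hsq h₂ p₂) (hsq h₁ p₁) ω hω hsk hinvL m hg

end Pool.Agent.GS
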