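import Pool.Agent.Lib_helper24.GS.G1

/-!
# The restriction of an irreducible module to a commuting factor is isotypic
-/

namespace Pool.Agent.GS

open Module LieModule

section generic

variable {K U A : Type*} [Field K] [AddCommGroup U] [Module K U] [Ring A] [Algebra K A]
  [Module A U] [IsScalarTower K A U] [FiniteDimensional K U]

theorem iso_dvd (B : Submodule A U) [IsSimpleModule A B] (hT : isotypicComponent A U B = ⊤) :
    0 < finrank K B ∧ (∀ W : Submodule A U, finrank K B ∣ finrank K W) ∧
      (finrank K B = 1 → ∀ a : A, ∃ c : K, ∀ u : U, a • u = c • u) := by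
  have hI := IsIsotypicOfType.of_isotypicComponent_eq_top hT
  have : IsSemisimpleModule A U := by
    refine IsSemisimpleModule.of_sSup_simples_eq_top (eq_top_iff.mpr ?_)
    rw [← hT]
    refine sSup_le_sSup fun m hm => ?_
    obtain ⟨e⟩ := hm
    exact IsSimpleModule.congr e
  have hfW : ∀ W : Submodule A U, Module.Finite K W := fun W =>
    Module.Finite.of_injective (W.subtype.restrictScalars K) W.subtype_injective
  have hfU : Module.Finite A U := Module.Finite.of_restrictScalars_finite K A U
  have hfB := hfW B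
  refine ⟨?_, ?_, ?_⟩
  · have := IsSimpleModule.nontrivial A B
    exact Module.finrank_pos
  · intro W
    have hI' : IsIsotypicOfType A W B := hI.of_injective W.subtype W.subtype_injective
    have hfW' := hfW W
    have hfW : Module.Finite A W := Module.Finite.of_restrictScalars_finite K A W
    obtain ⟨n, ⟨e⟩⟩ := hI'.linearEquiv_fun
    rw [(e.restrictScalars K).finrank_eq, finrank_pi_fintype]
    simp
  · intro hd a
    obtain ⟨n, ⟨e⟩⟩ := hI.linearEquiv_fun
    obtain ⟨b, hb, hb1⟩ := finrank_eq_one_iff'.mp hd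
    obtain ⟨c, hc'⟩ := hb1 (a • b)
    refine ⟨c, fun u => ?_⟩
    have hcomm : ∀ (r : K) (v : B), a • r • v = r • a • v := fun r v => by
      rw [algebra_compatible_smul A r v, algebra_compatible_smul A r (a • v), smul_smul, smul_smul,
        Algebra.commutes]
    have ha : ∀ v : B, a • v = c • v := by
      intro v
      obtain ⟨r, rfl⟩ := hb1 v
      rw [hcomm, ← hc', smul_smul, smul_smul, mul_comm]
    have : e (a • u) = e (c • u) := by
      have h1 : e (c • u) = c • e u := (e.restrictScalars K).map_smul c u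
      rw [map_smul, h1]
      funext i
      exact ha _
    exact e.injective this

end generic

variable {K L U : Type*} [Field K] [LieRing L] [LieAlgebra K L]
  [AddCommGroup U] [Module K U] [LieRingModule L U] [LieModule K L U]

theorem isotypic_dvd [IsIrreducible K L U] [FiniteDimensional K U] {J C : LieIdeal K L}
    (hJC : J ⊔ C = ⊤) (hc : ∀ x ∈ J, ∀ y ∈ C, ⁅x, y⁆ = 0) :
    ∃ d : ℕ, 0 < d ∧ (∀ W : Submodule K U, (∀ y ∈ C, ∀ u ∈ W, ⁅y, u⁆ ∈ W) → d ∣ finrank K W) ∧
      (d = 1 → ∀ y ∈ C, ∃ c : K, ∀ u : U, ⁅y, u⁆ = c • u) := by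
  have hcu : ∀ x ∈ J, ∀ y ∈ C, ∀ u : U, ⁅x, ⁅y, u⁆⁆ = ⁅y, ⁅x, u⁆⁆ := fun x hx y hy u => by
    rw [leibniz_lie, hc x hx y hy, zero_lie, zero_add]
  have : Nontrivial U := nontrivial_of_isIrreducible K L U
  let A : Subalgebra K (Module.End K U) := Algebra.adjoin K ((toEnd K L U) '' (C : Set L))
  have : IsArtinian A U := isArtinian_of_tower K inferInstance
  obtain ⟨B, hB⟩ := IsAtomic.exists_atom (Submodule A U)
  have : IsSimpleModule A B := isSimpleModule_iff_isAtom.mpr hB
  have hsm : ∀ (y : L) (hy : y ∈ C) (u : U),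
      (⟨toEnd K L U y, Algebra.subset_adjoin ⟨y, hy, rfl⟩⟩ : A) • u = ⁅y, u⁆ := fun y hy u => rfl
  have hst : ∀ (W : Submodule A U), ∀ y ∈ C, ∀ u ∈ W, ⁅y, u⁆ ∈ W := fun W y hy u hu => by
    rw [← hsm y hy u]; exact W.smul_mem _ hu
  -- elements of `J` are `A`-linear
  have hJA : ∀ x ∈ J, ∀ (a : A) (u : U), ⁅x, a • u⁆ = a • ⁅x, u⁆ := by
    rintro x hx ⟨a, ha⟩ u
    change ⁅x, a u⁆ = a ⁅x, u⁆
    induction ha using Algebra.adjoin_induction generalizing u with
    | mem a ha =>
      obtain ⟨y, hy, rfl⟩ := ha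
      exact hcu x hx y hy u
    | algebraMap r => simp [Module.algebraMap_end_apply]
    | add a b _ _ h1 h2 => simp only [LinearMap.add_apply, lie_add, h1, h2]
    | mul a b _ _ h1 h2 => simp only [Module.End.mul_apply, h1, h2]
  let fJ : ∀ x ∈ J, U →ₗ[A] U := fun x hx =>
    { toFun := fun u => ⁅x, u⁆
      map_add' := fun u v => lie_add x u v
      map_smul' := fun a u => hJA x hx a u }
  let Y : LieSubmodule K L U :=
    { (isotypicComponent A U B).restrictScalars K with
      lie_mem := by
        intro l v hv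
        obtain ⟨x, hx, y, hy, rfl⟩ : ∃ x ∈ J, ∃ y ∈ C, x + y = l := by
          have : l ∈ J ⊔ C := by rw [hJC]; exact LieSubmodule.mem_top l
          rwa [LieSubmodule.mem_sup] at this
        rw [add_lie]
        refine add_mem ?_ (hst _ y hy v hv)
        exact LinearMap.le_comap_isotypicComponent B (fJ x hx) hv }
  have hYb : Y ≠ ⊥ := by
    intro h
    obtain ⟨v, hv, hv0⟩ := (Submodule.ne_bot_iff B).mp hB.1
    have : v ∈ Y := Submodule.le_isotypicComponent B hv
    rw [h] at this
    exact hv0 (by simpa using this)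
  have hY : Y = ⊤ := (eq_bot_or_eq_top Y).resolve_left hYb
  have hT : isotypicComponent A U B = ⊤ := by
    rw [eq_top_iff]
    intro v _
    have : v ∈ Y := by rw [hY]; exact LieSubmodule.mem_top v
    exact this
  obtain ⟨h1, h2, h3⟩ := iso_dvd (K := K) B hT
  refine ⟨_, h1, ?_, ?_⟩
  · intro W hW
    have hWA : ∀ (a : A) (u : U), u ∈ W → a • u ∈ W := by
      rintro ⟨a, ha⟩ u hu
      change a u ∈ W
      induction ha using Algebra.adjoin_induction generalizing u with
      | mem a ha =>
        obtain ⟨y, hy, rfl⟩ := ha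
        exact hW y hy u hu
      | algebraMap r => simpa [Module.algebraMap_end_apply] using W.smul_mem r hu
      | add a b _ _ h1 h2 => exact W.add_mem (h1 u hu) (h2 u hu)
      | mul a b _ _ h1 h2 => exact h1 _ (h2 u hu)
    let W' : Submodule A U := { W with smul_mem' := fun a u hu => hWA a u hu }
    have e : W ≃ₗ[K] W' :=
      { toFun := fun x => ⟨x.1, x.2⟩
        invFun := fun x => ⟨x.1, x.2⟩
        map_add' := fun _ _ => rfl
        map_smul' := fun _ _ => rfl
        left_inv := fun _ => rfl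
        right_inv := fun _ => rfl }
    rw [e.finrank_eq]
    exact h2 W'
  · intro hd y hy
    obtain ⟨c, hc⟩ := h3 hd ⟨toEnd K L U y, Algebra.subset_adjoin ⟨y, hy, rfl⟩⟩
    exact ⟨c, hc⟩

end Pool.Agent.GS
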