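import Pool.Agent.Lib_helper24.GS.G2

/-!
# The contradiction with two commuting factors
-/

namespace Pool.Agent.GS

open Module LieModule

variable {K L U : Type*} [Field K] [CharZero K] [LieRing L] [LieAlgebra K L]
  [AddCommGroup U] [Module K U] [LieRingModule L U] [LieModule K L U] [IsIrreducible K L U]
  [FiniteDimensional K U]

/-- The nilpotent and the involution lie in the same factor `J`: then every dimension is divisible
by the dimension of a simple module of the other factor. -/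
theorem side {J C : LieIdeal K L} (hJC : J ⊔ C = ⊤) (hc : ∀ x ∈ J, ∀ y ∈ C, ⁅x, y⁆ = 0)
    (hf : ∀ x : L, (∀ u : U, ⁅x, u⁆ = 0) → x = 0)
    (ht : ∀ x : L, LinearMap.trace K U (toEnd K L U x) = 0) (hC : C ≠ ⊥) {N l : L} (hN : N ∈ J)
    (hl : l ∈ J) (c : K)
    (hg : Nat.gcd (finrank K (LinearMap.ker (toEnd K L U l + c • (1 : Module.End K U))))
      (Nat.gcd (finrank K U) (finrank K (LinearMap.range (toEnd K L U N)))) = 1) : False := by
  have hcu : ∀ x ∈ J, ∀ y ∈ C, ∀ u : U, ⁅x, ⁅y, u⁆⁆ = ⁅y, ⁅x, u⁆⁆ := fun x hx y hy u => by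
    rw [leibniz_lie, hc x hx y hy, zero_lie, zero_add]
  have : Nontrivial U := nontrivial_of_isIrreducible K L U
  obtain ⟨d, hd0, hd, hd1⟩ := isotypic_dvd (U := U) hJC hc
  have a1 : d ∣ finrank K (LinearMap.ker (toEnd K L U l + c • (1 : Module.End K U))) := by
    refine hd _ fun y hy u hu => ?_
    rw [LinearMap.mem_ker] at hu ⊢
    have e1 : ⁅l, u⁆ + c • u = 0 := by simpa using hu
    have e2 : ⁅l, ⁅y, u⁆⁆ + c • ⁅y, u⁆ = 0 := by
      rw [hcu l hl y hy, ← lie_smul, ← lie_add, e1, lie_zero]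
    simpa using e2
  have a2 : d ∣ finrank K U := by
    have := hd ⊤ fun y _ u _ => Submodule.mem_top
    rwa [finrank_top] at this
  have a3 : d ∣ finrank K (LinearMap.range (toEnd K L U N)) := by
    refine hd _ fun y hy u hu => ?_
    obtain ⟨v, rfl⟩ := hu
    exact ⟨⁅y, v⁆, hcu N hN y hy v⟩
  have hd2 : d = 1 := by
    have := Nat.dvd_gcd a1 (Nat.dvd_gcd a2 a3)
    rw [hg] at this
    exact Nat.dvd_one.mp this
  refine hC ((LieSubmodule.eq_bot_iff C).mpr fun y hy => hf y fun u => ?_)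
  obtain ⟨r, hr⟩ := hd1 hd2 y hy
  have h1 : toEnd K L U y = r • (1 : Module.End K U) := LinearMap.ext fun v => hr v
  have h2 := ht y
  rw [h1, map_smul, LinearMap.trace_one, smul_eq_mul] at h2
  have h3 : (finrank K U : K) ≠ 0 := Nat.cast_ne_zero.mpr Module.finrank_pos.ne'
  rw [hr u, (mul_eq_zero.mp h2).resolve_right h3, zero_smul]

/-- An element `c + l` with scalar square lies in one of the factors. -/
theorem mem_or {J C : LieIdeal K L} (hJC : J ⊔ C = ⊤) (hc : ∀ x ∈ J, ∀ y ∈ C, ⁅x, y⁆ = 0)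
    (hf : ∀ x : L, (∀ u : U, ⁅x, u⁆ = 0) → x = 0)
    (hz : ∀ x : L, (∀ y : L, ⁅x, y⁆ = 0) → x = 0) {l : L} {c d : K}
    (h : ∀ u : U, c • (c • u + ⁅l, u⁆) + ⁅l, c • u + ⁅l, u⁆⁆ = d • u) : l ∈ J ∨ l ∈ C := by
  have key : ∀ {x : L}, (∀ z ∈ J, ⁅x, z⁆ = 0) → (∀ w ∈ C, ⁅x, w⁆ = 0) → x = 0 := by
    intro x h1 h2
    refine hz x fun y => ?_
    obtain ⟨a, ha, b, hb, rfl⟩ : ∃ a ∈ J, ∃ b ∈ C, a + b = y := by
      have : y ∈ J ⊔ C := by rw [hJC]; exact LieSubmodule.mem_top y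
      rwa [LieSubmodule.mem_sup] at this
    rw [lie_add, h1 a ha, h2 b hb, add_zero]
  obtain ⟨x, hx, y, hy, rfl⟩ : ∃ x ∈ J, ∃ y ∈ C, x + y = l := by
    have : l ∈ J ⊔ C := by rw [hJC]; exact LieSubmodule.mem_top l
    rwa [LieSubmodule.mem_sup] at this
  have h' : ∀ u : U, c • (c • u + ⁅x, u⁆ + ⁅y, u⁆) + ⁅x, c • u + ⁅x, u⁆ + ⁅y, u⁆⁆ +
      ⁅y, c • u + ⁅x, u⁆ + ⁅y, u⁆⁆ = d • u := by
    intro u
    have := h u
    rw [add_lie, add_lie] at this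
    rw [← this, add_assoc, ← add_assoc (c • u) ⁅x, u⁆ ⁅y, u⁆]
  rcases square_scalar (U := U) hJC hc hx hy h' with h1 | h1
  · right
    have : x = 0 := key (fun z hz' => hf _ (h1 z hz')) (fun w hw => hc x hx w hw)
    rw [this, zero_add]; exact hy
  · left
    have : y = 0 := key (fun z hz' => by rw [← lie_skew, hc z hz' y hy, neg_zero])
      (fun w hw => hf _ (h1 w hw))
    rw [this, add_zero]; exact hx

theorem core {J C : LieIdeal K L} (hJC : J ⊔ C = ⊤) (hc : ∀ x ∈ J, ∀ y ∈ C, ⁅x, y⁆ = 0)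
    (hf : ∀ x : L, (∀ u : U, ⁅x, u⁆ = 0) → x = 0)
    (ht : ∀ x : L, LinearMap.trace K U (toEnd K L U x) = 0)
    (hz : ∀ x : L, (∀ y : L, ⁅x, y⁆ = 0) → x = 0) (hJ : J ≠ ⊥) (hC : C ≠ ⊥) {N : L}
    (hN : ∀ u : U, ⁅N, ⁅N, u⁆⁆ = 0) {l₁ l₂ : L} {c₁ c₂ d₁ d₂ : K}
    (h₁ : ∀ u : U, c₁ • (c₁ • u + ⁅l₁, u⁆) + ⁅l₁, c₁ • u + ⁅l₁, u⁆⁆ = d₁ • u)
    (h₂ : ∀ u : U, c₂ • (c₂ • u + ⁅l₂, u⁆) + ⁅l₂, c₂ • u + ⁅l₂, u⁆⁆ = d₂ • u)
    (n₁ : l₁ ∉ C) (n₂ : l₂ ∉ J) (e₁ e₂ : K)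
    (g₁ : (¬ ∃ r : K, ∀ u : U, ⁅l₁, u⁆ = r • u) →
      Nat.gcd (finrank K (LinearMap.ker (toEnd K L U l₁ + e₁ • (1 : Module.End K U))))
        (Nat.gcd (finrank K U) (finrank K (LinearMap.range (toEnd K L U N)))) = 1)
    (g₂ : (¬ ∃ r : K, ∀ u : U, ⁅l₂, u⁆ = r • u) →
      Nat.gcd (finrank K (LinearMap.ker (toEnd K L U l₂ + e₂ • (1 : Module.End K U))))
        (Nat.gcd (finrank K U) (finrank K (LinearMap.range (toEnd K L U N)))) = 1) : False := by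
  have : Nontrivial U := nontrivial_of_isIrreducible K L U
  have hns : ∀ {l : L}, l ≠ 0 → ¬ ∃ r : K, ∀ u : U, ⁅l, u⁆ = r • u := by
    rintro l hl ⟨r, hr⟩
    have h1 : toEnd K L U l = r • (1 : Module.End K U) := LinearMap.ext fun v => hr v
    have h2 := ht l
    rw [h1, map_smul, LinearMap.trace_one, smul_eq_mul] at h2
    have h3 : (finrank K U : K) ≠ 0 := Nat.cast_ne_zero.mpr Module.finrank_pos.ne'
    exact hl (hf l fun u => by rw [hr u, (mul_eq_zero.mp h2).resolve_right h3, zero_smul])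
  have m₁ : l₁ ∈ J := (mem_or (U := U) hJC hc hf hz h₁).resolve_right n₁
  have m₂ : l₂ ∈ C := (mem_or (U := U) hJC hc hf hz h₂).resolve_left n₂
  have z₁ : l₁ ≠ 0 := fun h => n₁ (h ▸ zero_mem _)
  have z₂ : l₂ ≠ 0 := fun h => n₂ (h ▸ zero_mem _)
  have mN : N ∈ J ∨ N ∈ C := mem_or (U := U) (c := 0) (d := 0) hJC hc hf hz fun u => by
    simp [hN u]
  rcases mN with m | m
  · exact side (U := U) hJC hc hf ht hC m m₁ e₁ (g₁ (hns z₁))
  · refine side (U := U) (J := C) (C := J) (by rw [sup_comm]; exact hJC) (fun x hx y hy => ?_) hf ht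
      hJ m m₂ e₂ (g₂ (hns z₂))
    rw [← lie_skew, hc y hy x hx, neg_zero]

end Pool.Agent.GS
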