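import Pool.Agent.Lib_helper24.GS.G4

/-!
# The projective form: the image is simple up to scalars
-/

namespace Pool.Agent.GS

open Module LieModule

attribute [local instance 100] LieRing.ofAssociativeRing

variable {K : Type*} [Field K] [CharZero K] [IsAlgClosed K] {g : Type*} [LieRing g] [LieAlgebra K g]

/-- The structure of the traceless part `L` of the image: for every ideal `I` of `g`, either `I`
acts by scalars, or `I` has the same image as `g` up to scalars, or `L = J + C` with `J` the image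
of `I` and `J`, `C` nonzero commuting ideals. -/
theorem facts (U : Type*) [AddCommGroup U] [Module K U] [FiniteDimensional K U]
    [LieRingModule g U] [LieModule K g U] [LieModule.IsIrreducible K g U] :
    (∀ x : (phi (K := K) (g := g) U).range,
      LinearMap.trace K U (toEnd K (phi (K := K) (g := g) U).range U x) = 0) ∧
    (∀ x : (phi (K := K) (g := g) U).range, (∀ u : U, ⁅x, u⁆ = 0) → x = 0) ∧
    LieModule.IsIrreducible K (phi (K := K) (g := g) U).range U ∧
    (∀ x : (phi (K := K) (g := g) U).range, (∀ y : (phi (K := K) (g := g) U).range, ⁅x, y⁆ = 0) →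
      x = 0) ∧
    ∀ I : LieIdeal K g, (∀ y ∈ I, ∃ c : K, ∀ v : U, ⁅y, v⁆ = c • v) ∨
      (∀ z : g, ∃ y ∈ I, ∃ c : K, ∀ v : U, ⁅z, v⁆ = ⁅y, v⁆ + c • v) ∨
      ∃ J C : LieIdeal K (phi (K := K) (g := g) U).range, J ≠ ⊥ ∧ C ≠ ⊥ ∧ J ⊔ C = ⊤ ∧
        J ⊓ C = ⊥ ∧ ∀ x ∈ J, ∀ y ∈ C, ⁅x, y⁆ = 0 := by
  have : Nontrivial U := nontrivial_of_isIrreducible K g U
  have hn : (finrank K U : K) ≠ 0 := Nat.cast_ne_zero.mpr Module.finrank_pos.ne'
  -- the Lie algebra `L` of traceless parts
  let L : LieSubalgebra K (Module.End K U) := (phi (g := g) U).range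
  let f : g →ₗ⁅K⁆ L := (phi (g := g) U).rangeRestrict
  have hf : Function.Surjective f := (phi (g := g) U).surjective_rangeRestrict
  have hfv : ∀ (z : g) (v : U), ⁅f z, v⁆ = ⁅z, v⁆ -
      ((finrank K U : K)⁻¹ * LinearMap.trace K U (toEnd K g U z)) • v := fun z v => rfl
  have htr : ∀ x : L, LinearMap.trace K U (toEnd K L U x) = 0 := by
    intro x
    obtain ⟨z, rfl⟩ := hf x
    have : toEnd K L U (f z) = phi U z := LinearMap.ext fun v => rfl
    rw [this, phi_apply, map_sub, map_smul, LinearMap.trace_one, smul_eq_mul]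
    field_simp
    ring
  have hfa : ∀ x : L, (∀ u : U, ⁅x, u⁆ = 0) → x = 0 := fun x hx =>
    Subtype.ext (LinearMap.ext fun v => hx v)
  have hirr : LieModule.IsIrreducible K L U := by
    refine LieModule.IsIrreducible.mk fun W hW => ?_
    let W' : LieSubmodule K g U :=
      { W.toSubmodule with
        lie_mem := by
          intro z v hv
          have h1 : ⁅z, v⁆ = ⁅f z, v⁆ +
              ((finrank K U : K)⁻¹ * LinearMap.trace K U (toEnd K g U z)) • v := by
            rw [hfv, sub_add_cancel]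
          rw [h1]
          exact W.add_mem (W.lie_mem hv) (W.smul_mem _ hv) }
    have h1 : W' ≠ ⊥ := by
      intro h
      refine hW ((LieSubmodule.eq_bot_iff W).mpr fun v hv => ?_)
      have : v ∈ W' := hv
      rw [h] at this
      simpa using this
    have h2 : W' = ⊤ := (eq_bot_or_eq_top W').resolve_left h1
    rw [eq_top_iff]
    intro v _
    have : v ∈ W' := by rw [h2]; exact LieSubmodule.mem_top v
    exact this
  have htrad : LieAlgebra.HasTrivialRadical K L :=
    LieAlgebra.hasTrivialRadical_of_isIrreducible_of_isFaithful K L U htr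
  have hz : ∀ x : L, (∀ y : L, ⁅x, y⁆ = 0) → x = 0 := by
    intro x hx
    have h1 : x ∈ LieAlgebra.center K L := by
      rw [LieModule.mem_maxTrivSubmodule]
      intro y
      rw [← lie_skew, hx y, neg_zero]
    rw [LieAlgebra.center_eq_bot] at h1
    simpa using h1
  refine ⟨htr, hfa, hirr, hz, fun I => ?_⟩
  let J : LieIdeal K L := I.map f
  let C : LieIdeal K L := J.killingCompl
  have hJC : IsCompl J C := J.isCompl_killingCompl
  have hJm : ∀ x : L, x ∈ J ↔ ∃ y ∈ I, f y = x := by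
    intro x
    constructor
    · intro hx
      obtain ⟨y, hy⟩ := LieIdeal.mem_map_of_surjective hf hx
      exact ⟨y, y.2, hy⟩
    · rintro ⟨y, hy, rfl⟩
      exact LieIdeal.mem_map hy
  have hc : ∀ x ∈ J, ∀ y ∈ C, ⁅x, y⁆ = 0 := by
    intro x hx y hy
    have h1 : ⁅x, y⁆ ∈ J ⊓ C := ⟨by
      have := J.lie_mem (x := y) hx
      rw [← lie_skew]
      exact J.neg_mem this, C.lie_mem hy⟩
    rw [hJC.inf_eq_bot] at h1
    simpa using h1
  by_cases hJ : J = ⊥
  · left
    intro y hy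
    have h1 : f y ∈ J := (hJm _).mpr ⟨y, hy, rfl⟩
    rw [hJ] at h1
    have h2 : f y = 0 := by simpa using h1
    refine ⟨(finrank K U : K)⁻¹ * LinearMap.trace K U (toEnd K g U y), fun v => ?_⟩
    have h3 := hfv y v
    rw [h2, zero_lie] at h3
    exact (sub_eq_zero.mp h3.symm)
  by_cases hC : C = ⊥
  · right
    left
    intro z
    have hT : J = ⊤ := by
      have := hJC.sup_eq_top
      rwa [hC, sup_bot_eq] at this
    obtain ⟨y, hy, hyz⟩ := (hJm (f z)).mp (by rw [hT]; exact LieSubmodule.mem_top _)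
    refine ⟨y, hy, (finrank K U : K)⁻¹ * LinearMap.trace K U (toEnd K g U z) -
      (finrank K U : K)⁻¹ * LinearMap.trace K U (toEnd K g U y), fun v => ?_⟩
    have h1 := hfv z v
    rw [← hyz, hfv] at h1
    rw [sub_smul, ← sub_eq_zero]
    rw [← sub_eq_zero] at h1
    rw [← neg_eq_zero, ← h1]
    abel
  exact Or.inr (Or.inr ⟨J, C, hJ, hC, hJC.sup_eq_top, hJC.inf_eq_bot, hc⟩)

/-- If `N² = 0` on the irreducible module `U` and the rank of `N` is prime to `dim U`, then every
ideal of `g` acts on `U` by scalars, or has the same image as `g` up to scalars. -/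
theorem psimple_of_coprime (U : Type*) [AddCommGroup U] [Module K U] [FiniteDimensional K U]
    [LieRingModule g U] [LieModule K g U] [LieModule.IsIrreducible K g U] (N : g)
    (hN : ∀ v : U, ⁅N, ⁅N, v⁆⁆ = 0)
    (hg : (finrank K (LinearMap.range (toEnd K g U N))).Coprime (finrank K U)) :
    ∀ I : LieIdeal K g, (∀ y ∈ I, ∃ c : K, ∀ v : U, ⁅y, v⁆ = c • v) ∨
      (∀ z : g, ∃ y ∈ I, ∃ c : K, ∀ v : U, ⁅z, v⁆ = ⁅y, v⁆ + c • v) := by
  obtain ⟨htr, hfa, hirr, hz, hI⟩ := facts (K := K) (g := g) U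
  intro I
  rcases hI I with h | h | ⟨J, C, hJ, hC, hJC, -, hc⟩
  · exact Or.inl h
  · exact Or.inr h
  exfalso
  have : Nontrivial U := nontrivial_of_isIrreducible K g U
  have hn : (finrank K U : K) ≠ 0 := Nat.cast_ne_zero.mpr Module.finrank_pos.ne'
  let L : LieSubalgebra K (Module.End K U) := (phi (g := g) U).range
  let f : g →ₗ⁅K⁆ L := (phi (g := g) U).rangeRestrict
  have hfv : ∀ (z : g) (v : U), ⁅f z, v⁆ = ⁅z, v⁆ -
      ((finrank K U : K)⁻¹ * LinearMap.trace K U (toEnd K g U z)) • v := fun z v => rfl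
  have hNt : LinearMap.trace K U (toEnd K g U N) = 0 := by
    refine (LinearMap.isNilpotent_trace_of_isNilpotent ⟨2, ?_⟩).eq_zero
    rw [pow_two]
    exact LinearMap.ext fun v => hN v
  have hNf : ∀ v : U, ⁅f N, v⁆ = ⁅N, v⁆ := by
    intro v
    rw [hfv, hNt, mul_zero, zero_smul, sub_zero]
  have hNe : toEnd K L U (f N) = toEnd K g U N := LinearMap.ext hNf
  have key : ∀ {J C : LieIdeal K L}, J ⊔ C = ⊤ → (∀ x ∈ J, ∀ y ∈ C, ⁅x, y⁆ = 0) → C ≠ ⊥ →
      f N ∈ J → False := by
    intro J C hJC hc hC hNJ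
    refine side (U := U) hJC hc hfa htr hC hNJ (zero_mem J : (0 : L) ∈ J) 0 ?_
    rw [hNe, Nat.Coprime.gcd_eq_one (Nat.Coprime.symm hg), Nat.gcd_one_right]
  have mN : f N ∈ J ∨ f N ∈ C := mem_or (U := U) (c := 0) (d := 0) hJC hc hfa hz fun u => by
    rw [zero_smul, zero_smul, zero_add, zero_add, hNf, hNf, hN]
  rcases mN with m | m
  · exact key hJC hc hC m
  · exact key (by rw [sup_comm]; exact hJC)
      (fun x hx y hy => by rw [← lie_skew, hc y hy x hx, neg_zero]) hJ m

/-- The projective form of `almostSimple_of_gcd`. -/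
theorem psimple_of_gcd (U : Type*) [AddCommGroup U] [Module K U] [FiniteDimensional K U]
    [LieRingModule g U] [LieModule K g U] [LieModule.IsIrreducible K g U] (P : g → Prop)
    (hP : ∀ h, P h → ∀ v : U, ⁅h, ⁅h, v⁆⁆ = (1 / 4 : K) • v)
    (HT : ∀ I : LieIdeal K g, (∀ h, P h → h ∈ I) → I = ⊤) (N : g)
    (hN : ∀ v : U, ⁅N, ⁅N, v⁆⁆ = 0)
    (hg : ∀ h, P h → (¬ ∃ c : K, ∀ v : U, ⁅h, v⁆ = c • v) →
      Nat.gcd (finrank K (LinearMap.ker (toEnd K g U h - (1 / 2 : K) • (1 : Module.End K U))))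
        (Nat.gcd (finrank K U) (finrank K (LinearMap.range (toEnd K g U N)))) = 1) :
    ∀ I : LieIdeal K g, (∀ y ∈ I, ∃ c : K, ∀ v : U, ⁅y, v⁆ = c • v) ∨
      (∀ z : g, ∃ y ∈ I, ∃ c : K, ∀ v : U, ⁅z, v⁆ = ⁅y, v⁆ + c • v) := by
  obtain ⟨htr, hfa, hirr, hz, hI⟩ := facts (K := K) (g := g) U
  intro I
  rcases hI I with h | h | ⟨J, C, hJ, hC, hJC, hJC', hc⟩
  · exact Or.inl h
  · exact Or.inr h
  exfalso
  have : Nontrivial U := nontrivial_of_isIrreducible K g U
  have hn : (finrank K U : K) ≠ 0 := Nat.cast_ne_zero.mpr Module.finrank_pos.ne'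
  let L : LieSubalgebra K (Module.End K U) := (phi (g := g) U).range
  let f : g →ₗ⁅K⁆ L := (phi (g := g) U).rangeRestrict
  have hf : Function.Surjective f := (phi (g := g) U).surjective_rangeRestrict
  have hfv : ∀ (z : g) (v : U), ⁅f z, v⁆ = ⁅z, v⁆ -
      ((finrank K U : K)⁻¹ * LinearMap.trace K U (toEnd K g U z)) • v := fun z v => rfl
  -- generators outside a proper ideal
  have hex : ∀ Q : LieIdeal K L, Q ≠ ⊤ → ∃ h, P h ∧ f h ∉ Q := by
    intro Q hQ
    by_contra hcon
    push Not at hcon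
    have h1 := HT (Q.comap f) fun h hh => (LieIdeal.mem_comap).mpr (hcon h hh)
    refine hQ (eq_top_iff.mpr fun x _ => ?_)
    obtain ⟨z, rfl⟩ := hf x
    have : z ∈ Q.comap f := by rw [h1]; exact LieSubmodule.mem_top z
    exact LieIdeal.mem_comap.mp this
  have hJt : J ≠ ⊤ := fun h => hC (by rwa [h, top_inf_eq] at hJC')
  have hCt : C ≠ ⊤ := fun h => hJ (by rwa [h, inf_top_eq] at hJC')
  obtain ⟨h₁, p₁, n₁⟩ := hex C hCt
  obtain ⟨h₂, p₂, n₂⟩ := hex J hJt
  have hsq : ∀ h, P h → ∀ u : U, (((finrank K U : K)⁻¹ * LinearMap.trace K U (toEnd K g U h)) •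
      (((finrank K U : K)⁻¹ * LinearMap.trace K U (toEnd K g U h)) • u + ⁅f h, u⁆) + ⁅f h,
      ((finrank K U : K)⁻¹ * LinearMap.trace K U (toEnd K g U h)) • u + ⁅f h, u⁆⁆) =
        (1 / 4 : K) • u := by
    intro h ph u
    rw [hfv, add_sub_cancel, hfv, add_sub_cancel, hP h ph]
  have hNt : LinearMap.trace K U (toEnd K g U N) = 0 := by
    refine (LinearMap.isNilpotent_trace_of_isNilpotent ⟨2, ?_⟩).eq_zero
    rw [pow_two]
    exact LinearMap.ext fun v => hN v
  have hNf : ∀ v : U, ⁅f N, v⁆ = ⁅N, v⁆ := by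
    intro v
    rw [hfv, hNt, mul_zero, zero_smul, sub_zero]
  have hNe : toEnd K L U (f N) = toEnd K g U N := LinearMap.ext hNf
  have hker : ∀ h, toEnd K L U (f h) +
      ((finrank K U : K)⁻¹ * LinearMap.trace K U (toEnd K g U h) - 1 / 2) •
        (1 : Module.End K U) = toEnd K g U h - (1 / 2 : K) • (1 : Module.End K U) := by
    intro h
    refine LinearMap.ext fun v => ?_
    have h1 := hfv h v
    simp only [LinearMap.add_apply, LinearMap.sub_apply, LinearMap.smul_apply, toEnd_apply_apply,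
      Module.End.one_apply, h1, sub_smul]
    abel
  have hgg : ∀ h, P h → (¬ ∃ r : K, ∀ u : U, ⁅f h, u⁆ = r • u) →
      Nat.gcd (finrank K (LinearMap.ker (toEnd K L U (f h) +
        ((finrank K U : K)⁻¹ * LinearMap.trace K U (toEnd K g U h) - 1 / 2) •
          (1 : Module.End K U))))
        (Nat.gcd (finrank K U) (finrank K (LinearMap.range (toEnd K L U (f N))))) = 1 := by
    intro h ph hh
    rw [hker h, hNe]
    refine hg h ph fun ⟨c, hcc⟩ => hh ⟨c -
      (finrank K U : K)⁻¹ * LinearMap.trace K U (toEnd K g U h), fun u => ?_⟩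
    rw [hfv, hcc, sub_smul]
  refine core (U := U) hJC hc hfa htr hz hJ hC (N := f N) (fun u => ?_)
    (hsq h₁ p₁) (hsq h₂ p₂) n₁ n₂ _ _ (hgg h₁ p₁) (hgg h₂ p₂)
  rw [hNf, hNf, hN]

end Pool.Agent.GS
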