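import Pool.Agent.Lib_helper24.GS.G5

/-!
# The simple constituent of the commuting factor
-/

namespace Pool.Agent.GS

open Module LieModule

section generic

variable {K U A : Type*} [Field K] [AddCommGroup U] [Module K U] [Ring A] [Algebra K A]
  [Module A U] [IsScalarTower K A U] [FiniteDimensional K U]

/-- Multiplication by `a` as a `K`-linear map. -/
def mulL (K : Type*) {A : Type*} (U : Type*) [Field K] [AddCommGroup U] [Module K U] [Ring A]
    [Algebra K A] [Module A U] [IsScalarTower K A U] (a : A) : U →ₗ[K] U :=
  { toFun := fun u => a • u
    map_add' := fun u v => smul_add a u v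
    map_smul' := fun r v => by
      rw [RingHom.id_apply, algebra_compatible_smul A r v, algebra_compatible_smul A r (a • v),
        smul_smul, smul_smul, Algebra.commutes] }

theorem iso_ker (B : Submodule A U) [IsSimpleModule A B] (hT : isotypicComponent A U B = ⊤) :
    ∃ m : ℕ, finrank K U = m * finrank K B ∧ ∀ a : A,
      finrank K (LinearMap.ker (mulL K U a)) = m * finrank K (LinearMap.ker (mulL K B a)) := by
  have hI := IsIsotypicOfType.of_isotypicComponent_eq_top hT
  have : IsSemisimpleModule A U := by
    refine IsSemisimpleModule.of_sSup_simples_eq_top (eq_top_iff.mpr ?_)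
    rw [← hT]
    refine sSup_le_sSup fun m hm => ?_
    obtain ⟨e⟩ := hm
    exact IsSimpleModule.congr e
  have hfB : Module.Finite K B :=
    Module.Finite.of_injective (B.subtype.restrictScalars K) B.subtype_injective
  have hfU : Module.Finite A U := Module.Finite.of_restrictScalars_finite K A U
  obtain ⟨n, ⟨e⟩⟩ := hI.linearEquiv_fun
  refine ⟨n, ?_, fun a => ?_⟩
  · rw [(e.restrictScalars K).finrank_eq, finrank_pi_fintype]
    simp
  · let E : LinearMap.ker (mulL K U a) ≃ₗ[K] (Fin n → LinearMap.ker (mulL K B a)) :=
      { toFun := fun u i => ⟨e u i, by
          have h1 : a • (u : U) = 0 := u.2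
          have h2 : e (a • (u : U)) = 0 := by rw [h1, map_zero]
          rw [map_smul] at h2
          exact congrFun h2 i⟩
        map_add' := fun u v => by
          funext i
          apply Subtype.ext
          change e ((u : U) + v) i = _
          rw [map_add]
          rfl
        map_smul' := fun r u => by
          funext i
          apply Subtype.ext
          have h1 : e (r • (u : U)) = r • e u := (e.restrictScalars K).map_smul r u
          exact congrFun h1 i
        invFun := fun w => ⟨e.symm (fun i => (w i : B)), by
          change a • e.symm (fun i => (w i : B)) = 0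
          rw [← map_smul]
          have h1 : a • (fun i => (w i : B) : Fin n → B) = 0 := by
            funext i
            exact (w i).2
          rw [h1, map_zero]⟩
        left_inv := fun u => by
          apply Subtype.ext
          exact e.symm_apply_apply (u : U)
        right_inv := fun w => by
          funext i
          apply Subtype.ext
          exact congrFun (e.apply_symm_apply (fun i => (w i : B))) i }
    rw [E.finrank_eq, finrank_pi_fintype]
    simp

end generic

section traces

variable {K U : Type*} [Field K] [CharZero K] [AddCommGroup U] [Module K U] [FiniteDimensional K U]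

/-- An operator with square `1/4` and trace `0` has eigenspaces of the same dimension. -/
theorem half_dim {T : Module.End K U} (h : ∀ u, T (T u) = (1 / 4 : K) • u)
    (ht : LinearMap.trace K U T = 0) :
    2 * finrank K (LinearMap.ker (T - (1 / 2 : K) • (1 : Module.End K U))) = finrank K U := by
  let P : Module.End K U := T + (1 / 2 : K) • (1 : Module.End K U)
  have hP : LinearMap.IsProj (LinearMap.ker (T - (1 / 2 : K) • (1 : Module.End K U))) P := by
    constructor
    · intro u
      rw [LinearMap.mem_ker]
      change T (T u + (1 / 2 : K) • u) - (1 / 2 : K) • (T u + (1 / 2 : K) • u) = 0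
      rw [map_add, h, map_smul]
      module
    · intro u hu
      rw [LinearMap.mem_ker] at hu
      have h1 : T u - (1 / 2 : K) • u = 0 := hu
      change T u + (1 / 2 : K) • u = u
      rw [sub_eq_zero.mp h1, ← add_smul]
      norm_num
  have h1 := hP.trace
  rw [map_add, ht, map_smul, LinearMap.trace_one, smul_eq_mul, zero_add] at h1
  have h2 : (finrank K U : K) = ((2 * finrank K
      (LinearMap.ker (T - (1 / 2 : K) • (1 : Module.End K U))) : ℕ) : K) := by
    push_cast
    rw [← h1]
    ring
  exact (Nat.cast_injective h2).symm

end traces

end Pool.Agent.GS
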