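import Pool.Agent.Lib_helper24.GS.G6

/-!
# Two commuting factors in the symplectic case
-/

namespace Pool.Agent.GS

open Module LieModule

section skew

variable {K S : Type*} [Field K] [CharZero K] [AddCommGroup S] [Module K S] [FiniteDimensional K S]

/-- A space with a nondegenerate skew-symmetric form has even dimension. -/
theorem even_of_skew (α : LinearMap.BilinForm K S) (hnd : ∀ s, (∀ t, α s t = 0) → s = 0)
    (hs : ∀ s t, α s t = -α t s) : Even (finrank K S) := by
  by_contra hodd
  rw [Nat.not_even_iff_odd] at hodd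
  let b := Module.finBasis K S
  let M : Matrix (Fin (finrank K S)) (Fin (finrank K S)) K := Matrix.of fun i j => α (b i) (b j)
  have hMt : M.transpose = -M := by
    ext i j
    exact hs (b j) (b i)
  have hdet : M.det = 0 := by
    have h1 : M.det = (-1) ^ finrank K S * M.det := by
      conv_lhs => rw [← Matrix.det_transpose, hMt, Matrix.det_neg, Fintype.card_fin]
    rw [hodd.neg_one_pow] at h1
    have h2 : (2 : K) * M.det = 0 := by linear_combination h1
    exact (mul_eq_zero.mp h2).resolve_left two_ne_zero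
  obtain ⟨v, hv0, hv⟩ := Matrix.exists_vecMul_eq_zero_iff.mpr hdet
  have h3 : ∑ i, v i • b i = 0 := by
    refine hnd _ fun t => ?_
    rw [← b.sum_repr t, map_sum]
    refine Finset.sum_eq_zero fun j _ => ?_
    rw [map_smul, map_sum, LinearMap.sum_apply]
    have h4 : ∑ i, α (v i • b i) (b j) = 0 := by
      have := congrFun hv j
      rw [Matrix.vecMul, dotProduct] at this
      simpa [M, smul_eq_mul] using this
    rw [h4, smul_zero]
  refine hv0 (funext fun i => ?_)
  exact (Fintype.linearIndependent_iff.mp b.linearIndependent) v h3 i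

end skew

variable {K L U : Type*} [Field K] [LieRing L] [LieAlgebra K L]
  [AddCommGroup U] [Module K U] [LieRingModule L U] [LieModule K L U]

/-- The associative algebra generated by `C`. -/
abbrev AC (K U : Type*) {L : Type*} [Field K] [LieRing L] [LieAlgebra K L]
    [AddCommGroup U] [Module K U] [LieRingModule L U] [LieModule K L U] (C : LieIdeal K L) :
    Subalgebra K (Module.End K U) :=
  Algebra.adjoin K ((toEnd K L U) '' (C : Set L))

/-- The elements of `C` in the algebra. -/
def inAC {C : LieIdeal K L} {y : L} (hy : y ∈ C) : AC K U C :=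
  ⟨toEnd K L U y, Algebra.subset_adjoin ⟨y, hy, rfl⟩⟩

theorem exists_simple [IsIrreducible K L U] [FiniteDimensional K U] {J C : LieIdeal K L}
    (hJC : J ⊔ C = ⊤) (hc : ∀ x ∈ J, ∀ y ∈ C, ⁅x, y⁆ = 0) :
    ∃ B : Submodule (AC K U C) U, IsSimpleModule (AC K U C) B ∧
      isotypicComponent (AC K U C) U B = ⊤ := by
  have hcu : ∀ x ∈ J, ∀ y ∈ C, ∀ u : U, ⁅x, ⁅y, u⁆⁆ = ⁅y, ⁅x, u⁆⁆ := fun x hx y hy u => by
    rw [leibniz_lie, hc x hx y hy, zero_lie, zero_add]
  have : Nontrivial U := nontrivial_of_isIrreducible K L U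
  let A : Subalgebra K (Module.End K U) := Algebra.adjoin K ((toEnd K L U) '' (C : Set L))
  have : IsArtinian A U := isArtinian_of_tower K inferInstance
  obtain ⟨B, hB⟩ := IsAtomic.exists_atom (Submodule A U)
  have hBs : IsSimpleModule A B := isSimpleModule_iff_isAtom.mpr hB
  have hsm : ∀ (y : L) (hy : y ∈ C) (u : U),
      (⟨toEnd K L U y, Algebra.subset_adjoin ⟨y, hy, rfl⟩⟩ : A) • u = ⁅y, u⁆ := fun y hy u => rfl
  have hst : ∀ (W : Submodule A U), ∀ y ∈ C, ∀ u ∈ W, ⁅y, u⁆ ∈ W := fun W y hy u hu => by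
    rw [← hsm y hy u]; exact W.smul_mem _ hu
  -- elements of `J` are `A`-linear
  have hJA : ∀ x ∈ J, ∀ (a : A) (u : U), ⁅x, a • u⁆ = a • ⁅x, u⁆ := by
    rintro x hx ⟨a, ha⟩ u
    change ⁅x, a u⁆ = a ⁅x, u⁆
    induction ha using Algebra.adjoin_induction generalizing u with
    | mem a ha =>
      obtain ⟨y, hy, rfl⟩ := ha
      exact hcu x hx y hy u
    | algebraMap r => simp [Module.algebraMap_end_apply]
    | add a b _ _ h1 h2 => simp only [LinearMap.add_apply, lie_add, h1, h2]
    | mul a b _ _ h1 h2 => simp only [Module.End.mul_apply, h1, h2]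
  let fJ : ∀ x ∈ J, U →ₗ[A] U := fun x hx =>
    { toFun := fun u => ⁅x, u⁆
      map_add' := fun u v => lie_add x u v
      map_smul' := fun a u => hJA x hx a u }
  let Y : LieSubmodule K L U :=
    { (isotypicComponent A U B).restrictScalars K with
      lie_mem := by
        intro l v hv
        obtain ⟨x, hx, y, hy, rfl⟩ : ∃ x ∈ J, ∃ y ∈ C, x + y = l := by
          have : l ∈ J ⊔ C := by rw [hJC]; exact LieSubmodule.mem_top l
          rwa [LieSubmodule.mem_sup] at this
        rw [add_lie]
        refine add_mem ?_ (hst _ y hy v hv)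
        exact LinearMap.le_comap_isotypicComponent B (fJ x hx) hv }
  have hYb : Y ≠ ⊥ := by
    intro h
    obtain ⟨v, hv, hv0⟩ := (Submodule.ne_bot_iff B).mp hB.1
    have : v ∈ Y := Submodule.le_isotypicComponent B hv
    rw [h] at this
    exact hv0 (by simpa using this)
  have hY : Y = ⊤ := (eq_bot_or_eq_top Y).resolve_left hYb
  refine ⟨B, hBs, ?_⟩
  rw [eq_top_iff]
  intro v _
  have : v ∈ Y := by rw [hY]; exact LieSubmodule.mem_top v
  exact this

/-- A subspace stable under `C` as a submodule over the algebra. -/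
def asSub {C : LieIdeal K L} (W : Submodule K U) (hW : ∀ y ∈ C, ∀ u ∈ W, ⁅y, u⁆ ∈ W) :
    Submodule (AC K U C) U :=
  { W with
    smul_mem' := by
      rintro ⟨a, ha⟩ u hu
      change a u ∈ W
      replace hu : u ∈ W := hu
      induction ha using Algebra.adjoin_induction generalizing u with
      | mem a ha =>
        obtain ⟨y, hy, rfl⟩ := ha
        exact hW y hy u hu
      | algebraMap r => simpa [Module.algebraMap_end_apply] using W.smul_mem r hu
      | add a b _ _ h1 h2 => exact W.add_mem (h1 hu) (h2 hu)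
      | mul a b _ _ h1 h2 => exact h1 (h2 hu) }

theorem asSub_finrank {C : LieIdeal K L} (W : Submodule K U)
    (hW : ∀ y ∈ C, ∀ u ∈ W, ⁅y, u⁆ ∈ W) : finrank K (asSub W hW) = finrank K W := by
  let e : W ≃ₗ[K] asSub W hW :=
    { toFun := fun x => ⟨x.1, x.2⟩
      invFun := fun x => ⟨x.1, x.2⟩
      map_add' := fun _ _ => rfl
      map_smul' := fun _ _ => rfl
      left_inv := fun _ => rfl
      right_inv := fun _ => rfl }
  exact e.finrank_eq.symm

end Pool.Agent.GS
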