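import Pool.Agent.Lib_helper24.GS.G7

/-!
# Two commuting factors in the symplectic case: the dimensions
-/

namespace Pool.Agent.GS

open Module LieModule

variable {K L U : Type*} [Field K] [CharZero K] [LieRing L] [LieAlgebra K L]
  [AddCommGroup U] [Module K U] [LieRingModule L U] [LieModule K L U]

/-- the eigenspace of `h` for `c`, as a kernel -/
abbrev eig (K U : Type*) {L : Type*} [Field K] [LieRing L] [LieAlgebra K L]
    [AddCommGroup U] [Module K U] [LieRingModule L U] [LieModule K L U] (h : L) (c : K) :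
    Submodule K U := LinearMap.ker (toEnd K L U h - c • (1 : Module.End K U))

omit [CharZero K] in
theorem mem_eig {h : L} {c : K} {u : U} : u ∈ eig K U h c ↔ ⁅h, u⁆ = c • u := by
  rw [LinearMap.mem_ker]
  exact sub_eq_zero

theorem eig_half {h : L} (s : ∀ u : U, ⁅h, ⁅h, u⁆⁆ = (1 / 4 : K) • u)
    (ht : LinearMap.trace K U (toEnd K L U h) = 0) [FiniteDimensional K U] :
    2 * finrank K (eig K U h (1 / 2)) = finrank K U ∧
      2 * finrank K (eig K U h (-(1 / 2))) = finrank K U := by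
  constructor
  · exact half_dim (T := toEnd K L U h) s ht
  · have h1 := half_dim (T := -toEnd K L U h) (U := U)
      (fun u => by
        change -⁅h, -⁅h, u⁆⁆ = _
        rw [lie_neg, neg_neg]; exact s u) (by rw [map_neg, ht, neg_zero])
    rw [← h1]
    congr 1
    have : eig K U h (-(1 / 2)) =
        LinearMap.ker (-toEnd K L U h - (1 / 2 : K) • (1 : Module.End K U)) := by
      ext u
      rw [mem_eig, LinearMap.mem_ker]
      change _ ↔ -⁅h, u⁆ - (1 / 2 : K) • u = 0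
      constructor
      · intro hu
        rw [hu, neg_smul, neg_neg, sub_self]
      · intro hu
        rw [neg_smul, ← sub_eq_zero.mp hu, neg_neg]
    rw [this]

theorem eig_sup {h : L} (s : ∀ u : U, ⁅h, ⁅h, u⁆⁆ = (1 / 4 : K) • u) :
    eig K U h (1 / 2) ⊔ eig K U h (-(1 / 2)) = ⊤ := by
  rw [eq_top_iff]
  intro u _
  rw [Submodule.mem_sup]
  refine ⟨⁅h, u⁆ + (1 / 2 : K) • u, ?_, (1 / 2 : K) • u - ⁅h, u⁆, ?_, ?_⟩
  · rw [mem_eig, lie_add, s, lie_smul]
    module
  · rw [mem_eig, lie_sub, s, lie_smul]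
    module
  · module

theorem eig_inf (h : L) : eig K U h (1 / 2) ⊓ eig K U h (-(1 / 2)) = ⊥ := by
  rw [eq_bot_iff]
  rintro u ⟨h1, h2⟩
  have e1 := mem_eig.mp h1
  have e2 := mem_eig.mp h2
  rw [e1] at e2
  have e3 : (1 : K) • u = 0 := by
    have : (1 / 2 : K) • u - (-(1 / 2 : K)) • u = 0 := by rw [e2, sub_self]
    rw [← this]
    module
  rwa [one_smul] at e3

variable [IsIrreducible K L U] [FiniteDimensional K U] {J C : LieIdeal K L}

/-- The dimension of the constituent is even and twice the dimension of its eigenspaces. -/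
theorem const_half (B : Submodule (AC K U C) U) [IsSimpleModule (AC K U C) B]
    (hB : isotypicComponent (AC K U C) U B = ⊤)
    (ht : ∀ x : L, LinearMap.trace K U (toEnd K L U x) = 0) {h₂ : L} (m₂ : h₂ ∈ C)
    (s₂ : ∀ u : U, ⁅h₂, ⁅h₂, u⁆⁆ = (1 / 4 : K) • u) :
    finrank K B = 2 * finrank K
        (LinearMap.ker (mulL K B (inAC m₂ - algebraMap K (AC K U C) (1 / 2)))) ∧
      finrank K B = 2 * finrank K
        (LinearMap.ker (mulL K B (inAC m₂ - algebraMap K (AC K U C) (-(1 / 2))))) := by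
  have : Nontrivial U := nontrivial_of_isIrreducible K L U
  obtain ⟨m, h1, h2⟩ := iso_ker (K := K) B hB
  have hm : 0 < m := by
    have : 0 < finrank K U := Module.finrank_pos
    rw [h1] at this
    exact pos_of_mul_pos_left this (Nat.zero_le _)
  obtain ⟨e1, e2⟩ := eig_half s₂ (ht h₂)
  have key : ∀ c : K, 2 * finrank K (eig K U h₂ c) = finrank K U →
      finrank K B = 2 * finrank K
        (LinearMap.ker (mulL K B (inAC m₂ - algebraMap K (AC K U C) c))) := by
    intro c hc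
    have h3 := h2 (inAC m₂ - algebraMap K (AC K U C) c)
    have h4 : LinearMap.ker (mulL K U (inAC m₂ - algebraMap K (AC K U C) c)) = eig K U h₂ c := by
      ext u
      rfl
    rw [h4] at h3
    rw [h3, h1] at hc
    have : m * (2 * finrank K
        (LinearMap.ker (mulL K B (inAC m₂ - algebraMap K (AC K U C) c)))) =
        m * finrank K B := by rw [← hc]; ring
    exact (Nat.eq_of_mul_eq_mul_left hm this).symm
  exact ⟨key _ e1, key _ e2⟩

/-- The dimension of `U` is divisible by 4. -/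
theorem four_dvd (hJC : J ⊔ C = ⊤) (hc : ∀ x ∈ J, ∀ y ∈ C, ⁅x, y⁆ = 0)
    (ht : ∀ x : L, LinearMap.trace K U (toEnd K L U x) = 0) {h₁ h₂ : L} (m₁ : h₁ ∈ J)
    (m₂ : h₂ ∈ C) (s₁ : ∀ u : U, ⁅h₁, ⁅h₁, u⁆⁆ = (1 / 4 : K) • u)
    (s₂ : ∀ u : U, ⁅h₂, ⁅h₂, u⁆⁆ = (1 / 4 : K) • u) : 4 ∣ finrank K U := by
  have hcu : ∀ x ∈ J, ∀ y ∈ C, ∀ u : U, ⁅x, ⁅y, u⁆⁆ = ⁅y, ⁅x, u⁆⁆ := fun x hx y hy u => by
    rw [leibniz_lie, hc x hx y hy, zero_lie, zero_add]
  obtain ⟨B, hBs, hB⟩ := exists_simple (K := K) (U := U) hJC hc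
  obtain ⟨h1, -⟩ := const_half B hB ht m₂ s₂
  obtain ⟨e1, -⟩ := eig_half s₁ (ht h₁)
  have hW : ∀ y ∈ C, ∀ u ∈ eig K U h₁ (1 / 2), ⁅y, u⁆ ∈ eig K U h₁ (1 / 2) := by
    intro y hy u hu
    rw [mem_eig] at hu ⊢
    rw [hcu h₁ m₁ y hy, hu, lie_smul]
  have h2 := (iso_dvd (K := K) B hB).2.1 (asSub _ hW)
  rw [asSub_finrank] at h2
  obtain ⟨t, ht'⟩ := h2
  rw [← e1, ht', h1]
  exact ⟨finrank K (LinearMap.ker (mulL K B (inAC m₂ - algebraMap K (AC K U C) (1 / 2)))) * t,
    by ring⟩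

end Pool.Agent.GS
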