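import Pool.Agent.Lib_helper24.GS.G8

/-!
# Two commuting factors in the symplectic case: the rank
-/

namespace Pool.Agent.GS

open Module LieModule

section generic

variable {K U A : Type*} [Field K] [AddCommGroup U] [Module K U] [Ring A] [Algebra K A]
  [Module A U] [IsScalarTower K A U]

theorem simple_alt (B : Submodule A U) [IsSimpleModule A B] (W : Submodule K B)
    (hW : ∀ (a : A) (b : B), b ∈ W → a • b ∈ W) : W = ⊥ ∨ W = ⊤ := by
  let B' : Submodule A B := { W with smul_mem' := fun a b hb => hW a b hb }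
  rcases eq_bot_or_eq_top B' with h | h
  · left
    rw [eq_bot_iff]
    intro b hb
    have : b ∈ B' := hb
    rw [h] at this
    simpa using this
  · right
    rw [eq_top_iff]
    intro b _
    have : b ∈ B' := by rw [h]; exact Submodule.mem_top
    exact this

theorem mem_ker_sub {M : Type*} [AddCommGroup M] [Module K M] [Module A M] [IsScalarTower K A M]
    {a : A} {c : K} {u : M} :
    u ∈ LinearMap.ker (mulL K M (a - algebraMap K A c)) ↔ a • u = c • u := by
  rw [LinearMap.mem_ker]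
  change (a - algebraMap K A c) • u = 0 ↔ _
  rw [sub_smul, algebraMap_smul, sub_eq_zero]

theorem gen_lower [FiniteDimensional K U] (B : Submodule A U) [IsSimpleModule A B]
    (hB : isotypicComponent A U B = ⊤) (hd : finrank K B = 2) (a₂ af : A) (c : K)
    (hk : 2 = 2 * finrank K (LinearMap.ker (mulL K B (a₂ - algebraMap K A c))))
    (hfm : ∀ u : U, a₂ • u = c • u → af • u = 0) (hne : ∃ b : B, af • (b : U) ≠ 0) :
    ∀ u : U, af • u = 0 → a₂ • u = c • u := by
  have hfB : Module.Finite K B :=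
    Module.Finite.of_injective (B.subtype.restrictScalars K) B.subtype_injective
  obtain ⟨m, n1, n2⟩ := iso_ker (K := K) B hB
  have hkB : finrank K (LinearMap.ker (mulL K B af)) = 1 := by
    have hle : LinearMap.ker (mulL K B (a₂ - algebraMap K A c)) ≤
        LinearMap.ker (mulL K B af) := by
      intro b' hb'
      rw [mem_ker_sub] at hb'
      rw [LinearMap.mem_ker]
      apply Subtype.ext
      exact hfm _ (congrArg Subtype.val hb')
    have hne' : LinearMap.ker (mulL K B af) ≠ ⊤ := by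
      intro h
      obtain ⟨b, hb⟩ := hne
      have h1 : b ∈ LinearMap.ker (mulL K B af) := by
        rw [h]; exact Submodule.mem_top
      rw [LinearMap.mem_ker] at h1
      exact hb (congrArg Subtype.val h1)
    have h1' := Submodule.finrank_mono hle
    have h2 := Submodule.finrank_lt hne'
    rw [hd] at h2
    omega
  have hle : LinearMap.ker (mulL K U (a₂ - algebraMap K A c)) ≤ LinearMap.ker (mulL K U af) := by
    intro u hu
    rw [mem_ker_sub] at hu
    exact hfm u hu
  have heq : LinearMap.ker (mulL K U (a₂ - algebraMap K A c)) = LinearMap.ker (mulL K U af) := by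
    refine Submodule.eq_of_le_of_finrank_eq hle ?_
    rw [n2, n2, hkB]
    have : finrank K (LinearMap.ker (mulL K B (a₂ - algebraMap K A c))) = 1 := by omega
    rw [this]
  intro u hu
  rw [← mem_ker_sub, heq]
  exact hu

end generic

variable {K L U : Type*} [Field K] [CharZero K] [LieRing L] [LieAlgebra K L]
  [AddCommGroup U] [Module K U] [LieRingModule L U] [LieModule K L U]
  [IsIrreducible K L U] [FiniteDimensional K U] {J C : LieIdeal K L}

/-- Some element of `C` maps the eigenspace of `h` for `1/2` isomorphically onto the other one. -/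
theorem exists_lower (B : Submodule (AC K U C) U) [IsSimpleModule (AC K U C) B]
    (hB : isotypicComponent (AC K U C) U B = ⊤)
    (ht : ∀ x : L, LinearMap.trace K U (toEnd K L U x) = 0) {h₂ : L} (m₂ : h₂ ∈ C)
    (s₂ : ∀ u : U, ⁅h₂, ⁅h₂, u⁆⁆ = (1 / 4 : K) • u) (hd : finrank K B = 2) :
    ∃ f ∈ C, (∀ u ∈ eig K U h₂ (1 / 2), ⁅f, u⁆ ∈ eig K U h₂ (-(1 / 2))) ∧
      ∀ u ∈ eig K U h₂ (1 / 2), ⁅f, u⁆ = 0 → u = 0 := by
  obtain ⟨k1, k2⟩ := const_half B hB ht m₂ s₂
  rw [hd] at k1 k2
  have hfB : Module.Finite K B :=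
    Module.Finite.of_injective (B.subtype.restrictScalars K) B.subtype_injective
  set Bp := LinearMap.ker (mulL K B (inAC m₂ - algebraMap K (AC K U C) (1 / 2))) with hBp
  set Bm := LinearMap.ker (mulL K B (inAC m₂ - algebraMap K (AC K U C) (-(1 / 2)))) with hBm
  have hBpm : ∀ b : B, b ∈ Bp ↔ ⁅h₂, (b : U)⁆ = (1 / 2 : K) • (b : U) := by
    intro b
    rw [hBp, LinearMap.mem_ker]
    constructor
    · intro h
      exact sub_eq_zero.mp (congrArg Subtype.val h)
    · intro h
      apply Subtype.ext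
      exact sub_eq_zero.mpr h
  have hBmm : ∀ b : B, b ∈ Bm ↔ ⁅h₂, (b : U)⁆ = (-(1 / 2) : K) • (b : U) := by
    intro b
    rw [hBm, LinearMap.mem_ker]
    constructor
    · intro h
      exact sub_eq_zero.mp (congrArg Subtype.val h)
    · intro h
      apply Subtype.ext
      exact sub_eq_zero.mpr h
  -- the eigenspace is not stable
  obtain ⟨c, hcC, b, hb, hcb⟩ : ∃ c, ∃ hc : c ∈ C, ∃ b ∈ Bp, inAC (K := K) (U := U) hc • b ∉ Bp := by
    by_contra hcon
    push Not at hcon
    have hst : ∀ (a : AC K U C) (b : B), b ∈ Bp → a • b ∈ Bp := by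
      rintro ⟨a, ha⟩ b hb
      induction ha using Algebra.adjoin_induction generalizing b with
      | mem a ha =>
        obtain ⟨y, hy, rfl⟩ := ha
        exact hcon y hy b hb
      | algebraMap r => exact Bp.smul_mem r hb
      | add a b _ _ h1 h2 => exact Bp.add_mem (h1 _ hb) (h2 _ hb)
      | mul a b _ _ h1 h2 => exact h1 _ (h2 _ hb)
    rcases simple_alt B Bp hst with h | h
    · rw [h, finrank_bot] at k1
      omega
    · rw [h, finrank_top, hd] at k1
      omega
  -- the lowering element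
  let f : L := (1 / 2 : K) • (⁅h₂, ⁅h₂, c⁆⁆ - ⁅h₂, c⁆)
  have hfC : f ∈ C := C.smul_mem _ (C.sub_mem (C.lie_mem (C.lie_mem hcC)) (C.lie_mem hcC))
  have hf1 : ∀ u : U, ⁅h₂, u⁆ = (1 / 2 : K) • u → ⁅f, u⁆ = (1 / 2 : K) • ⁅c, u⁆ - ⁅h₂, ⁅c, u⁆⁆ := by
    intro u hu
    simp only [f, smul_lie, sub_lie, lie_lie, lie_sub, lie_smul, hu, s₂]
    module
  have hf2 : ∀ u : U, ⁅h₂, u⁆ = (-(1 / 2) : K) • u → ⁅f, u⁆ = 0 := by
    intro u hu
    simp only [f, smul_lie, sub_lie, lie_lie, lie_sub, lie_smul, hu, s₂]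
    module
  refine ⟨f, hfC, fun u hu => ?_, ?_⟩
  · rw [mem_eig] at hu ⊢
    rw [hf1 u hu, lie_sub, lie_smul, s₂]
    module
  -- injectivity
  intro u hu hfu
  have h1 : u ∈ eig K U h₂ (-(1 / 2)) := by
    rw [mem_eig]
    refine gen_lower B hB hd (inAC m₂) (inAC hfC) (-(1 / 2)) k2 (fun u hu => hf2 u hu)
      ⟨b, fun h2 => ?_⟩ u hfu
    have h2' : ⁅f, (b : U)⁆ = 0 := h2
    rw [hf1 _ ((hBpm b).mp hb), sub_eq_zero] at h2'
    exact hcb ((hBpm _).mpr h2'.symm)
  have h2 : u ∈ eig K U h₂ (1 / 2) ⊓ eig K U h₂ (-(1 / 2)) := ⟨hu, h1⟩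
  rw [eig_inf] at h2
  simpa using h2

end Pool.Agent.GS
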